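import Pool.Agent.Work.MP_dcf6a6_c1.Interface

open CategoryTheory AlgebraicGeometry Polynomial Topology

namespace Pool.C1.helper17

noncomputable section

section CD

variable {E : Type*} [NormedAddCommGroup E] [NormedSpace ℂ E]

/-- all coefficients are continuously differentiable -/
def CD (P : E → ℂ[X]) : Prop := ∀ k, ContDiff ℂ 1 (fun x => (P x).coeff k)

theorem CD.const (p : ℂ[X]) : CD (fun _ : E => p) := fun _ => contDiff_const

theorem CD.mul {P Q : E → ℂ[X]} (hP : CD P) (hQ : CD Q) : CD (fun x => P x * Q x) := by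
  intro k
  simp only [Polynomial.coeff_mul]
  exact ContDiff.sum fun i _ => (hP _).mul (hQ _)

theorem CD.sub {P Q : E → ℂ[X]} (hP : CD P) (hQ : CD Q) : CD (fun x => P x - Q x) := by
  intro k
  simp only [Polynomial.coeff_sub]
  exact (hP _).sub (hQ _)

theorem CD.pow {P : E → ℂ[X]} (hP : CD P) (n : ℕ) : CD (fun x => P x ^ n) := by
  induction n with
  | zero => simpa using CD.const (E := E) 1
  | succ n ih =>
    simp only [pow_succ]
    exact ih.mul hP

theorem CD.prod {ι : Type*} (s : Finset ι) (P : ι → E → ℂ[X]) (h : ∀ i ∈ s, CD (P i)) :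
    CD (fun x => ∏ i ∈ s, P i x) := by
  classical
  induction s using Finset.induction_on with
  | empty => simpa using CD.const (E := E) 1
  | insert a s ha ih =>
    simp only [Finset.prod_insert ha]
    exact (h a (Finset.mem_insert_self a s)).mul
      (ih fun i hi => h i (Finset.mem_insert_of_mem hi))

end CD

theorem coeff_lo {n : ℕ} (c : ℕ) (ε : ℂ) (a : Fin (n + 1) → ℂ) (k : ℕ) :
    (lo c ε a).coeff k = if h : k < n + 1 then a ⟨k, h⟩ * ε ^ (k - c) else 0 := by
  unfold lo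
  simp only [Polynomial.finset_sum_coeff, Polynomial.coeff_C_mul_X_pow]
  split_ifs with h
  · rw [Finset.sum_eq_single (⟨k, h⟩ : Fin (n + 1))]
    · simp
    · intro b _ hb
      rw [if_neg]
      intro hk
      exact hb (Fin.ext hk.symm)
    · intro h1
      exact absurd (Finset.mem_univ _) h1
  · refine Finset.sum_eq_zero fun b _ => ?_
    rw [if_neg]
    intro hk
    exact h (hk ▸ b.2)

theorem coeff_hi {n : ℕ} (c : ℕ) (ε : ℂ) (a : Fin (n + 1) → ℂ) (k : ℕ) :
    (hi c ε a).coeff k = if h : k < n + 1 then a ⟨k, h⟩ * ε ^ (c - k) else 0 := by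
  unfold hi
  simp only [Polynomial.finset_sum_coeff, Polynomial.coeff_C_mul_X_pow]
  split_ifs with h
  · rw [Finset.sum_eq_single (⟨k, h⟩ : Fin (n + 1))]
    · simp
    · intro b _ hb
      rw [if_neg]
      intro hk
      exact hb (Fin.ext hk.symm)
    · intro h1
      exact absurd (Finset.mem_univ _) h1
  · refine Finset.sum_eq_zero fun b _ => ?_
    rw [if_neg]
    intro hk
    exact h (hk ▸ b.2)

section

variable {E : Type*} [NormedAddCommGroup E] [NormedSpace ℂ E]

theorem CD.lo {n : ℕ} (c : ℕ) (ε : E → ℂ) (a : E → Fin (n + 1) → ℂ) (hε : ContDiff ℂ 1 ε)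
    (ha : ContDiff ℂ 1 a) : CD (fun x => lo c (ε x) (a x)) := by
  intro k
  simp only [coeff_lo]
  by_cases h : k < n + 1
  · simp only [dif_pos h]
    exact ((contDiff_pi.1 ha) _).mul (hε.pow _)
  · simp only [dif_neg h]
    exact contDiff_const

theorem CD.hi {n : ℕ} (c : ℕ) (ε : E → ℂ) (a : E → Fin (n + 1) → ℂ) (hε : ContDiff ℂ 1 ε)
    (ha : ContDiff ℂ 1 a) : CD (fun x => hi c (ε x) (a x)) := by
  intro k
  simp only [coeff_hi]
  by_cases h : k < n + 1
  · simp only [dif_pos h]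
    exact ((contDiff_pi.1 ha) _).mul (hε.pow _)
  · simp only [dif_neg h]
    exact contDiff_const

end

/-- derivative of a curve of polynomials at `0`, coefficientwise -/
def HD (P : ℂ → ℂ[X]) (P' : ℂ[X]) : Prop :=
  ∀ k, HasDerivAt (fun z => (P z).coeff k) (P'.coeff k) 0

theorem HD.congr' {P : ℂ → ℂ[X]} {P' Q' : ℂ[X]} (h : HD P P') (he : P' = Q') : HD P Q' := he ▸ h

theorem HD.const (p : ℂ[X]) : HD (fun _ => p) 0 := by
  intro k
  simpa using hasDerivAt_const (0 : ℂ) (p.coeff k)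

theorem HD.mul {P Q : ℂ → ℂ[X]} {P' Q' : ℂ[X]} (hP : HD P P') (hQ : HD Q Q') :
    HD (fun z => P z * Q z) (P' * Q 0 + P 0 * Q') := by
  intro k
  simp only [Polynomial.coeff_mul, Polynomial.coeff_add]
  rw [← Finset.sum_add_distrib]
  exact HasDerivAt.fun_sum fun i _ => (hP _).mul (hQ _)

theorem HD.sub {P Q : ℂ → ℂ[X]} {P' Q' : ℂ[X]} (hP : HD P P') (hQ : HD Q Q') :
    HD (fun z => P z - Q z) (P' - Q') := by
  intro k
  simp only [Polynomial.coeff_sub]
  exact (hP _).sub (hQ _)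

theorem HD.pow {P : ℂ → ℂ[X]} {P' : ℂ[X]} (hP : HD P P') (n : ℕ) :
    HD (fun z => P z ^ n) (C (n : ℂ) * P 0 ^ (n - 1) * P') := by
  induction n with
  | zero => simpa using HD.const 1
  | succ n ih =>
    simp only [pow_succ]
    refine (ih.mul hP).congr' ?_
    rcases n with _ | n
    · simp
    · simp only [Nat.add_sub_cancel, Nat.cast_add, Nat.cast_one, map_add, map_one, pow_succ]
      ring

theorem HD.prod {ι : Type*} [DecidableEq ι] (s : Finset ι) (P : ι → ℂ → ℂ[X]) (P' : ι → ℂ[X])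
    (h : ∀ i ∈ s, HD (P i) (P' i)) :
    HD (fun z => ∏ i ∈ s, P i z) (∑ i ∈ s, P' i * ∏ j ∈ s.erase i, P j 0) := by
  induction s using Finset.induction_on with
  | empty => simpa using HD.const 1
  | insert a s ha ih =>
    simp only [Finset.prod_insert ha]
    refine ((h a (Finset.mem_insert_self a s)).mul
      (ih fun i hi => h i (Finset.mem_insert_of_mem hi))).congr' ?_
    rw [Finset.sum_insert ha, Finset.erase_insert ha, Finset.mul_sum]
    congr 1
    refine Finset.sum_congr rfl fun i hi => ?_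
    have hia : i ≠ a := fun h => ha (h ▸ hi)
    rw [Finset.erase_insert_of_ne hia.symm, Finset.prod_insert]
    · ring
    · intro h1
      exact ha (Finset.mem_of_mem_erase h1)

theorem HD.lo {n : ℕ} (c : ℕ) (ε : ℂ) (a δ : Fin (n + 1) → ℂ) :
    HD (fun z => lo c ε (a + z • δ)) (lo c ε δ) := by
  intro k
  simp only [coeff_lo]
  by_cases h : k < n + 1
  · simp only [dif_pos h, Pi.add_apply, Pi.smul_apply, smul_eq_mul]
    have h1 : HasDerivAt (fun z : ℂ => a ⟨k, h⟩ + z * δ ⟨k, h⟩) (δ ⟨k, h⟩) 0 := by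
      simpa using (hasDerivAt_mul_const (x := (0 : ℂ)) (δ ⟨k, h⟩)).const_add (a ⟨k, h⟩)
    exact h1.mul_const _
  · simp only [dif_neg h]
    exact hasDerivAt_const _ _

theorem HD.hi {n : ℕ} (c : ℕ) (ε : ℂ) (a δ : Fin (n + 1) → ℂ) :
    HD (fun z => hi c ε (a + z • δ)) (hi c ε δ) := by
  intro k
  simp only [coeff_hi]
  by_cases h : k < n + 1
  · simp only [dif_pos h, Pi.add_apply, Pi.smul_apply, smul_eq_mul]
    have h1 : HasDerivAt (fun z : ℂ => a ⟨k, h⟩ + z * δ ⟨k, h⟩) (δ ⟨k, h⟩) 0 := by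
      simpa using (hasDerivAt_mul_const (x := (0 : ℂ)) (δ ⟨k, h⟩)).const_add (a ⟨k, h⟩)
    exact h1.mul_const _
  · simp only [dif_neg h]
    exact hasDerivAt_const _ _

section

variable {J B : Type} [Fintype J] [Fintype B] [DecidableEq J] [DecidableEq B] (D : BData J B)

theorem HD.uu (τ : J → ℂ → ℂ[X]) (σ : J → ℂ[X]) (h : ∀ j, HD (τ j) (σ j)) (b : B) :
    HD (fun z => D.uu (fun j => τ j z) b) (D.du (fun j => τ j 0) σ b) := by
  unfold BData.uu BData.du
  exact HD.prod (Finset.univ.filter fun j => D.bl j = b) (fun j z => τ j z ^ D.l j)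
    (fun j => C (D.l j : ℂ) * τ j 0 ^ (D.l j - 1) * σ j) (fun j _ => (h j).pow _)

theorem HD.Cmul {P : ℂ → ℂ[X]} {P' : ℂ[X]} (r : ℂ) (hP : HD P P') :
    HD (fun z => C r * P z) (C r * P') := by
  refine ((HD.const (C r)).mul hP).congr' ?_
  simp

theorem hd_eqLo (c c' : J → ℕ) (d d' : ℕ) (e δ : GSp c c' d d') (ε : ℂ) (b : B) :
    HD (fun z => D.eqLo c c' d d' (e + z • δ) ε b) (D.deLo c c' d d' e δ ε b) := by
  unfold BData.eqLo BData.deLo
  have h1 := HD.uu D (fun j z => lo (c j) ε (e.1 j + z • δ.1 j)) (fun j => lo (c j) ε (δ.1 j))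
    (fun j => HD.lo _ _ _ _) b
  simp only [zero_smul, add_zero] at h1
  exact (h1.sub (HD.Cmul _ (HD.lo d ε e.2.1 δ.2.1))).sub (HD.Cmul _ (HD.lo d ε e.2.2 δ.2.2))

theorem hd_eqHi (c c' : J → ℕ) (d d' : ℕ) (e δ : GSp c c' d d') (ε : ℂ) (b : B) :
    HD (fun z => D.eqHi c c' d d' (e + z • δ) ε b) (D.deHi c c' d d' e δ ε b) := by
  unfold BData.eqHi BData.deHi
  have h1 := HD.uu D (fun j z => hi (c j) ε (e.1 j + z • δ.1 j)) (fun j => hi (c j) ε (δ.1 j))
    (fun j => HD.hi _ _ _ _) b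
  simp only [zero_smul, add_zero] at h1
  exact (h1.sub (HD.Cmul _ (HD.hi d ε e.2.1 δ.2.1))).sub (HD.Cmul _ (HD.hi d ε e.2.2 δ.2.2))

theorem cd_EE (c c' : J → ℕ) (d d' : ℕ) : ContDiff ℂ 1 (D.EE c c' d d') := by
  rw [contDiff_pi]
  intro b
  rw [contDiff_pi]
  intro k
  have h1 : ContDiff ℂ 1 (fun x : GSp c c' d d' × ℂ => x.2) := contDiff_snd
  have h2 : ∀ j, ContDiff ℂ 1 (fun x : GSp c c' d d' × ℂ => x.1.1 j) := fun j =>
    (contDiff_pi.1 (contDiff_fst.comp contDiff_fst)) j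
  have h3 : ContDiff ℂ 1 (fun x : GSp c c' d d' × ℂ => x.1.2.1) :=
    contDiff_fst.comp (contDiff_snd.comp contDiff_fst)
  have h4 : ContDiff ℂ 1 (fun x : GSp c c' d d' × ℂ => x.1.2.2) :=
    contDiff_snd.comp (contDiff_snd.comp contDiff_fst)
  unfold BData.EE
  by_cases hk : (k : ℕ) ≤ d
  · simp only [if_pos hk]
    have : CD (fun x : GSp c c' d d' × ℂ => D.eqLo c c' d d' x.1 x.2 b) := by
      unfold BData.eqLo BData.uu
      exact ((CD.prod _ _ fun j _ => (CD.lo _ _ _ h1 (h2 j)).pow _).sub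
        ((CD.const _).mul (CD.lo _ _ _ h1 h3))).sub ((CD.const _).mul (CD.lo _ _ _ h1 h4))
    exact this k
  · simp only [if_neg hk]
    have : CD (fun x : GSp c c' d d' × ℂ => D.eqHi c c' d d' x.1 x.2 b) := by
      unfold BData.eqHi BData.uu
      exact ((CD.prod _ _ fun j _ => (CD.hi _ _ _ h1 (h2 j)).pow _).sub
        ((CD.const _).mul (CD.hi _ _ _ h1 h3))).sub ((CD.const _).mul (CD.hi _ _ _ h1 h4))
    exact this k

end

theorem stmt_CALC : Stmt_CALC := by
  intro J B _ _ _ _ D c c' d d'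
  have hC := cd_EE D c c' d d'
  refine ⟨hC, fun e δ ε => ?_⟩
  have hF : HasFDerivAt (D.EE c c' d d') (fderiv ℂ (D.EE c c' d d') (e, ε)) (e, ε) :=
    ((hC.differentiable (by norm_num)) (e, ε)).hasFDerivAt
  have hcurve : HasDerivAt (fun z : ℂ => ((e + z • δ, ε) : GSp c c' d d' × ℂ)) (δ, 0) 0 := by
    have h1 : HasDerivAt (fun z : ℂ => e + z • δ) δ 0 := by
      simpa using ((hasDerivAt_id (0 : ℂ)).smul_const δ).const_add e
    exact h1.prodMk (hasDerivAt_const _ _)
  have hF' : HasFDerivAt (D.EE c c' d d') (fderiv ℂ (D.EE c c' d d') (e, ε))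
      ((fun z : ℂ => ((e + z • δ, ε) : GSp c c' d d' × ℂ)) 0) := by
    simpa using hF
  have h2 := hF'.comp_hasDerivAt (0 : ℂ) hcurve
  funext b k
  have h3 := (hasDerivAt_pi.1 ((hasDerivAt_pi.1 h2) b)) k
  refine h3.unique ?_
  unfold BData.DEE
  by_cases hk : (k : ℕ) ≤ d
  · simp only [if_pos hk]
    refine (hd_eqLo D c c' d d' e δ ε b k).congr_of_eventuallyEq (Filter.Eventually.of_forall ?_)
    intro z
    simp only [Function.comp, BData.EE, if_pos hk]
  · simp only [if_neg hk]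
    refine (hd_eqHi D c c' d d' e δ ε b k).congr_of_eventuallyEq (Filter.Eventually.of_forall ?_)
    intro z
    simp only [Function.comp, BData.EE, if_neg hk]

end

end Pool.C1.helper17
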