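import Pool.Agent.Work.MP_dcf6a6_c1_helper17.CALC

open CategoryTheory AlgebraicGeometry Polynomial Topology

namespace Pool.C1.helper17

noncomputable section

theorem natDegree_lo_le {n : ℕ} (c : ℕ) (ε : ℂ) (a : Fin (n + 1) → ℂ) :
    (lo c ε a).natDegree ≤ n := by
  rw [Polynomial.natDegree_le_iff_coeff_eq_zero]
  intro k hk
  rw [coeff_lo, dif_neg (by omega)]

theorem hi_comp {n : ℕ} (c : ℕ) (ε : ℂ) (a : Fin (n + 1) → ℂ) :
    (hi c ε a).comp (C ε * X) = C (ε ^ c) * lo c ε a := by
  ext k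
  rw [Polynomial.comp_C_mul_X_coeff, Polynomial.coeff_C_mul, coeff_lo, coeff_hi]
  split_ifs with h
  · have h1 : ε ^ (c - k) * ε ^ k = ε ^ c * ε ^ (k - c) := by
      rw [← pow_add, ← pow_add]
      congr 1
      omega
    rw [mul_assoc, h1]
    ring
  · simp

section

variable {J B : Type} [Fintype J] [Fintype B] [DecidableEq J] [DecidableEq B] (D : BData J B)

theorem eq_comp (c c' : J → ℕ) (d d' : ℕ) (e : GSp c c' d d') (ε : ℂ)
    (hd : ∀ b, ∑ j with D.bl j = b, D.l j * c j = d) (b : B) :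
    (D.eqHi c c' d d' e ε b).comp (C ε * X) = C (ε ^ d) * D.eqLo c c' d d' e ε b := by
  unfold BData.eqHi BData.eqLo BData.uu
  rw [Polynomial.sub_comp, Polynomial.sub_comp, Polynomial.mul_comp, Polynomial.mul_comp,
    Polynomial.C_comp, Polynomial.C_comp, hi_comp, hi_comp, Polynomial.prod_comp]
  have h1 : ∏ j with D.bl j = b, (hi (c j) ε (e.1 j) ^ D.l j).comp (C ε * X) =
      C (ε ^ d) * ∏ j with D.bl j = b, lo (c j) ε (e.1 j) ^ D.l j := by
    have h2 : ε ^ d = ∏ j with D.bl j = b, ε ^ (D.l j * c j) := by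
      rw [Finset.prod_pow_eq_pow_sum, hd b]
    rw [h2, map_prod, ← Finset.prod_mul_distrib]
    refine Finset.prod_congr rfl fun j _ => ?_
    rw [Polynomial.pow_comp, hi_comp, mul_pow, ← C_pow, ← pow_mul, mul_comm (c j)]
  rw [h1]
  ring

theorem eq_coeff (c c' : J → ℕ) (d d' : ℕ) (e : GSp c c' d d') (ε : ℂ)
    (hd : ∀ b, ∑ j with D.bl j = b, D.l j * c j = d) (b : B) (k : ℕ) :
    (D.eqHi c c' d d' e ε b).coeff k * ε ^ k = ε ^ d * (D.eqLo c c' d d' e ε b).coeff k := by
  have := congrArg (fun p => p.coeff k) (eq_comp D c c' d d' e ε hd b)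
  simp only [Polynomial.comp_C_mul_X_coeff, Polynomial.coeff_C_mul] at this
  exact this

theorem eqLo_high (c c' : J → ℕ) (d d' : ℕ) (e : GSp c c' d d') (ε : ℂ)
    (hd : ∀ b, ∑ j with D.bl j = b, D.l j * c j = d)
    (hd' : ∀ b, ∑ j with D.bl j = b, D.l j * c' j = d') (b : B) (k : ℕ) (hk : d + d' < k) :
    (D.eqLo c c' d d' e ε b).coeff k = 0 := by
  refine Polynomial.coeff_eq_zero_of_natDegree_lt (lt_of_le_of_lt ?_ hk)
  unfold BData.eqLo BData.uu
  refine (Polynomial.natDegree_sub_le _ _).trans (max_le ((Polynomial.natDegree_sub_le _ _).trans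
    (max_le ?_ ?_)) ?_)
  · refine (Polynomial.natDegree_prod_le _ _).trans ?_
    have h1 : ∑ j with D.bl j = b, D.l j * (c j + c' j) = d + d' := by
      rw [← hd b, ← hd' b, ← Finset.sum_add_distrib]
      refine Finset.sum_congr rfl fun j _ => by ring
    refine le_trans ?_ h1.le
    refine Finset.sum_le_sum fun j _ => ?_
    exact (Polynomial.natDegree_pow_le).trans (Nat.mul_le_mul_left _ (natDegree_lo_le _ _ _))
  · exact (Polynomial.natDegree_C_mul_le _ _).trans (natDegree_lo_le _ _ _)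
  · exact (Polynomial.natDegree_C_mul_le _ _).trans (natDegree_lo_le _ _ _)

theorem de_coeff (c c' : J → ℕ) (d d' : ℕ) (e δ : GSp c c' d d') (ε : ℂ)
    (hd : ∀ b, ∑ j with D.bl j = b, D.l j * c j = d) (b : B) (k : ℕ) :
    (D.deHi c c' d d' e δ ε b).coeff k * ε ^ k = ε ^ d * (D.deLo c c' d d' e δ ε b).coeff k := by
  have h1 := (hd_eqHi D c c' d d' e δ ε b k).mul_const (ε ^ k)
  have h2 := (hd_eqLo D c c' d d' e δ ε b k).const_mul (ε ^ d)
  refine h1.unique (h2.congr_of_eventuallyEq (Filter.Eventually.of_forall fun z => ?_))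
  exact eq_coeff D c c' d d' (e + z • δ) ε hd b k

theorem deLo_high (c c' : J → ℕ) (d d' : ℕ) (e δ : GSp c c' d d') (ε : ℂ)
    (hd : ∀ b, ∑ j with D.bl j = b, D.l j * c j = d)
    (hd' : ∀ b, ∑ j with D.bl j = b, D.l j * c' j = d') (b : B) (k : ℕ) (hk : d + d' < k) :
    (D.deLo c c' d d' e δ ε b).coeff k = 0 := by
  refine (hd_eqLo D c c' d d' e δ ε b k).unique ?_
  refine (hasDerivAt_const (0 : ℂ) (0 : ℂ)).congr_of_eventuallyEq
    (Filter.Eventually.of_forall fun z => ?_)
  exact eqLo_high D c c' d d' (e + z • δ) ε hd hd' b k hk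

end

theorem stmt_GLA : Stmt_GLA := by
  intro J B _ _ _ _ D c c' d d' e ε hε hd hd'
  refine ⟨fun h0 b => ?_, fun hs P hP => ?_⟩
  · have h1 : D.eqLo c c' d d' e ε b = 0 := by
      ext k
      rw [Polynomial.coeff_zero]
      by_cases hk : d + d' < k
      · exact eqLo_high D c c' d d' e ε hd hd' b k hk
      · have h2 := congrFun (congrFun h0 b) ⟨k, by omega⟩
        simp only [BData.EE, Pi.zero_apply] at h2
        by_cases hkd : k ≤ d
        · rwa [if_pos hkd] at h2
        · rw [if_neg hkd] at h2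
          have h3 := eq_coeff D c c' d d' e ε hd b k
          rw [h2, zero_mul] at h3
          rcases mul_eq_zero.1 h3.symm with h4 | h4
          · exact absurd h4 (pow_ne_zero _ hε)
          · exact h4
    unfold BData.eqLo at h1
    linear_combination h1
  · obtain ⟨δ, hδ⟩ := hs (fun b k => if (k : ℕ) ≤ d then (P b).coeff k
      else (ε ^ ((k : ℕ) - d))⁻¹ * (P b).coeff k)
    refine ⟨fun j => lo (c j) ε (δ.1 j), lo d ε δ.2.1, lo d ε δ.2.2,
      fun j => natDegree_lo_le _ _ _, natDegree_lo_le _ _ _, natDegree_lo_le _ _ _,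
      fun b => ?_⟩
    have h1 : D.deLo c c' d d' e δ ε b = P b := by
      ext k
      by_cases hk : d + d' < k
      · rw [deLo_high D c c' d d' e δ ε hd hd' b k hk,
          Polynomial.coeff_eq_zero_of_natDegree_lt (lt_of_le_of_lt (hP b) hk)]
      · have h2 := congrFun (congrFun hδ b) ⟨k, by omega⟩
        simp only [BData.DEE] at h2
        by_cases hkd : k ≤ d
        · rwa [if_pos hkd, if_pos hkd] at h2
        · rw [if_neg hkd, if_neg hkd] at h2
          have h3 := de_coeff D c c' d d' e δ ε hd b k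
          rw [h2] at h3
          have h4 : ε ^ k = ε ^ d * ε ^ (k - d) := by
            rw [← pow_add]
            congr 1
            omega
          rw [h4] at h3
          have h5 : ε ^ (k - d) ≠ 0 := pow_ne_zero _ hε
          have h6 : ε ^ d ≠ 0 := pow_ne_zero _ hε
          have h7 : (ε ^ (k - d))⁻¹ * (P b).coeff k * (ε ^ d * ε ^ (k - d)) =
              ε ^ d * (P b).coeff k := by
            field_simp
          rw [h7] at h3
          exact (mul_left_cancel₀ h6 h3).symm
    unfold BData.deLo at h1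
    linear_combination h1

end

end Pool.C1.helper17
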