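import Pool.Agent.Work.MP_dcf6a6_c1_helper17.GLA

open CategoryTheory AlgebraicGeometry Polynomial Topology

namespace Pool.C1.helper17

noncomputable section

section

variable {J B : Type} [Fintype J] [Fintype B] [DecidableEq J] [DecidableEq B] {D : BData J B}
  {c : J → ℕ} {d : ℕ} {τ : J → ℂ[X]} {u v : ℂ[X]}

theorem sol_top_ne (h : D.IsSol c d τ u v) (j : J) : (τ j).coeff (c j) ≠ 0 := by
  rw [← h.deg j]
  exact leadingCoeff_ne_zero.2 (h.ne j)

theorem sol_uu_top (h : D.IsSol c d τ u v) (b : B) :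
    (D.uu τ b).coeff d = ∏ j with D.bl j = b, (τ j).coeff (c j) ^ D.l j := by
  have h1 : (D.uu τ b).natDegree = d := by
    unfold BData.uu
    rw [Polynomial.natDegree_prod _ _ fun j _ => pow_ne_zero _ (h.ne j), ← h.bal b]
    refine Finset.sum_congr rfl fun j _ => ?_
    rw [Polynomial.natDegree_pow, h.deg j]
  have h2 : (D.uu τ b).leadingCoeff = ∏ j with D.bl j = b, (τ j).coeff (c j) ^ D.l j := by
    unfold BData.uu
    rw [Polynomial.leadingCoeff_prod]
    refine Finset.prod_congr rfl fun j _ => ?_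
    rw [Polynomial.leadingCoeff_pow, Polynomial.leadingCoeff, h.deg j]
  rw [← h2, Polynomial.leadingCoeff, h1]

theorem uu_zero (τ : J → ℂ[X]) (b : B) :
    (D.uu τ b).coeff 0 = ∏ j with D.bl j = b, (τ j).coeff 0 ^ D.l j := by
  unfold BData.uu
  rw [Polynomial.coeff_zero_eq_eval_zero, Polynomial.eval_prod]
  refine Finset.prod_congr rfl fun j _ => ?_
  rw [Polynomial.eval_pow, Polynomial.coeff_zero_eq_eval_zero]

theorem sol_rel_coeff (h : D.IsSol c d τ u v) (b : B) (k : ℕ) :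
    (D.uu τ b).coeff k = D.al b * u.coeff k + D.be b * v.coeff k := by
  rw [h.rel b, Polynomial.coeff_add, Polynomial.coeff_C_mul, Polynomial.coeff_C_mul]

end

theorem gl_last {c c' : ℕ} (f f' : ℂ[X]) (h : f.coeff c = f'.coeff 0) :
    gl c c' f f' (Fin.last (c + c')) = f'.coeff c' := by
  unfold gl
  rw [Fin.val_last]
  split_ifs with h1
  · have : c' = 0 := by omega
    subst this
    rw [add_zero, h]
  · congr 1
    omega

theorem coeff_lo_last {n : ℕ} (c : ℕ) (ε : ℂ) (a : Fin (n + 1) → ℂ) :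
    (lo c ε a).coeff n = a (Fin.last n) * ε ^ (n - c) := by
  rw [coeff_lo, dif_pos (Nat.lt_succ_self n)]
  rfl

theorem glue_aux (hIFT : Stmt_IFT) (hCALC : Stmt_CALC) (hLIN : Stmt_LIN) (hGLA : Stmt_GLA)
    (hCOPR : Stmt_COPR) {J B : Type} [Fintype J] [Fintype B] [DecidableEq J] [DecidableEq B]
    (D : BData J B) (Bad : Finset ℂ) (c c' : J → ℕ) (d d' : ℕ) (τ τ' : J → ℂ[X])
    (u v u' v' : ℂ[X]) (h1 : D.IsSol c d τ u v) (h2 : D.Reg c d τ)
    (h3 : D.IsSol c' d' τ' u' v') (h4 : D.RG0 c' d' τ') (hz : ∀ j, (τ' j).coeff 0 ≠ 0)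
    (hG : GoodInf Bad d' u' v') (hτ : ∀ j, (τ j).coeff (c j) = (τ' j).coeff 0)
    (hu : u.coeff d = u'.coeff 0) (hv : v.coeff d = v'.coeff 0) :
    ∃ (τ'' : J → ℂ[X]) (u'' v'' : ℂ[X]),
      D.IsSol (fun j => c j + c' j) (d + d') τ'' u'' v'' ∧
      D.Reg (fun j => c j + c' j) (d + d') τ'' ∧ GoodInf Bad (d + d') u'' v'' := by
  obtain ⟨h0, hs⟩ := hLIN D c c' d d' τ τ' u v u' v' h1 h2 h3 h4 hτ hu hv
  obtain ⟨hC1, hC2⟩ := hCALC D c c' d d'
  set e₀ : GSp c c' d d' :=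
    (fun j => gl (c j) (c' j) (τ j) (τ' j), gl d d' u u', gl d d' v v') with he₀
  have hcont1 : ∀ j, Filter.Tendsto (fun x : GSp c c' d d' × ℂ => x.1.1 j) (𝓝 (e₀, 0))
      (𝓝 (e₀.1 j)) := fun j => by
    have : Continuous (fun x : GSp c c' d d' × ℂ => x.1.1 j) := by fun_prop
    exact this.tendsto _
  have hV : {x : GSp c c' d d' × ℂ | (∀ j, x.1.1 j (Fin.last _) ≠ 0) ∧
      x.1.2.2 (Fin.last _) ≠ 0 ∧
      (∀ q ∈ Bad, x.1.2.1 (Fin.last _) ≠ q * x.1.2.2 (Fin.last _)) ∧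
      ∀ i j, i ≠ j → x.2 ≠ 0 → IsCoprime (lo (c i) x.2 (x.1.1 i)) (lo (c j) x.2 (x.1.1 j))} ∈
      𝓝 ((e₀, 0) : GSp c c' d d' × ℂ) := by
    have hA : ∀ᶠ x : GSp c c' d d' × ℂ in 𝓝 (e₀, 0), ∀ j, x.1.1 j (Fin.last _) ≠ 0 := by
      rw [Filter.eventually_all]
      intro j
      have hc : Continuous (fun x : GSp c c' d d' × ℂ => x.1.1 j (Fin.last _)) := by fun_prop
      refine hc.continuousAt.eventually_ne ?_
      show gl (c j) (c' j) (τ j) (τ' j) (Fin.last _) ≠ 0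
      rw [gl_last _ _ (hτ j)]
      exact sol_top_ne h3 j
    have hB : ∀ᶠ x : GSp c c' d d' × ℂ in 𝓝 (e₀, 0), x.1.2.2 (Fin.last _) ≠ 0 := by
      have hc : Continuous (fun x : GSp c c' d d' × ℂ => x.1.2.2 (Fin.last _)) := by fun_prop
      refine hc.continuousAt.eventually_ne ?_
      show gl d d' v v' (Fin.last _) ≠ 0
      rw [gl_last _ _ hv]
      exact hG.1
    have hC : ∀ᶠ x : GSp c c' d d' × ℂ in 𝓝 (e₀, 0),
        ∀ q ∈ Bad, x.1.2.1 (Fin.last _) ≠ q * x.1.2.2 (Fin.last _) := by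
      rw [Filter.eventually_all_finset]
      intro q hq
      have hc : Continuous (fun x : GSp c c' d d' × ℂ =>
          x.1.2.1 (Fin.last _) - q * x.1.2.2 (Fin.last _)) := by fun_prop
      have hne : ∀ᶠ x : GSp c c' d d' × ℂ in 𝓝 (e₀, 0),
          x.1.2.1 (Fin.last _) - q * x.1.2.2 (Fin.last _) ≠ 0 := by
        refine hc.continuousAt.eventually_ne ?_
        show gl d d' u u' (Fin.last _) - q * gl d d' v v' (Fin.last _) ≠ 0
        rw [gl_last _ _ hu, gl_last _ _ hv]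
        exact sub_ne_zero.2 (hG.2 q hq)
      exact hne.mono fun x hx => sub_ne_zero.1 hx
    have hE : ∀ᶠ x : GSp c c' d d' × ℂ in 𝓝 (e₀, 0), ∀ i j, i ≠ j → x.2 ≠ 0 →
        IsCoprime (lo (c i) x.2 (x.1.1 i)) (lo (c j) x.2 (x.1.1 j)) := by
      rw [Filter.eventually_all]
      intro i
      rw [Filter.eventually_all]
      intro j
      by_cases hij : i = j
      · exact Filter.Eventually.of_forall fun x h => absurd hij h
      · have hcp := hCOPR (c i) (c' i) (c j) (c' j) (τ i) (τ' i) (τ j) (τ' j) (h1.deg i)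
          (h3.deg i) (h1.deg j) (h3.deg j) (hz i) (hz j) (hτ i) (hτ j) (h1.cop i j hij)
          (h3.cop i j hij)
        have hc : Continuous (fun x : GSp c c' d d' × ℂ => ((x.1.1 i, x.1.1 j), x.2)) := by
          fun_prop
        have ht := hc.tendsto (e₀, 0)
        exact (ht.eventually hcp).mono fun x hx _ => hx
    exact (hA.and (hB.and (hC.and hE)))
  obtain ⟨e, ε, hε, hVe, hEe, hse⟩ := hIFT (D.EE c c' d d') e₀ _ hC1 h0
    (fun w => by
      obtain ⟨δ, hδ⟩ := hs w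
      exact ⟨δ, by rw [hC2]; exact hδ⟩) hV
  obtain ⟨hA, hB, hC, hE⟩ := hVe
  obtain ⟨hg1, hg2⟩ := hGLA D c c' d d' e ε hε h1.bal h3.bal
  have hrel := hg1 hEe
  have hreg := hg2 (fun w => by
    obtain ⟨δ, hδ⟩ := hse w
    exact ⟨δ, by rw [← hC2]; exact hδ⟩)
  have htop : ∀ j, (lo (c j) ε (e.1 j)).coeff (c j + c' j) ≠ 0 := by
    intro j
    rw [coeff_lo_last]
    exact mul_ne_zero (hA j) (pow_ne_zero _ hε)
  refine ⟨fun j => lo (c j) ε (e.1 j), lo d ε e.2.1, lo d ε e.2.2,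
    ⟨fun j => ?_, fun j => ?_, fun b => ?_, hrel, fun i j hij => hE i j hij hε⟩, hreg, ?_, ?_⟩
  · exact le_antisymm (natDegree_lo_le _ _ _) (Polynomial.le_natDegree_of_ne_zero (htop j))
  · intro h
    apply htop j
    have h' : lo (c j) ε (e.1 j) = 0 := h
    rw [h', Polynomial.coeff_zero]
  · rw [← h1.bal b, ← h3.bal b, ← Finset.sum_add_distrib]
    exact Finset.sum_congr rfl fun j _ => by ring
  · rw [coeff_lo_last]
    exact mul_ne_zero hB (pow_ne_zero _ hε)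
  · intro q hq
    rw [coeff_lo_last, coeff_lo_last, ← mul_assoc]
    intro h
    exact hC q hq (mul_right_cancel₀ (pow_ne_zero _ hε) h)

theorem stmt_GLUE (hIFT : Stmt_IFT) (hCALC : Stmt_CALC) (hRG0 : Stmt_RG0) (hLIN : Stmt_LIN)
    (hGLA : Stmt_GLA) (hCOPR : Stmt_COPR) (hSCAL : Stmt_SCAL) : Stmt_GLUE := by
  intro J B _ _ _ _ D Bad q c c' d d' τ τ' u v u' v' h1 h2 hvd hud h3 h4 hz hG
  have h4' := hRG0 D c' d' τ' u' v' q h3 h4 hz
  obtain ⟨hz1, hz2, hz3, hz4⟩ := hz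
  have hprod : ∀ b, ∏ j with D.bl j = b, ((τ' j).coeff 0 / (τ j).coeff (c j)) ^ D.l j =
      v'.coeff 0 / v.coeff d := by
    intro b
    have h5 : ∏ j with D.bl j = b, ((τ' j).coeff 0 / (τ j).coeff (c j)) ^ D.l j =
        (D.uu τ' b).coeff 0 / (D.uu τ b).coeff d := by
      rw [uu_zero, sol_uu_top h1, ← Finset.prod_div_distrib]
      exact Finset.prod_congr rfl fun j _ => by rw [div_pow]
    have h6 : (D.uu τ b).coeff d ≠ 0 := by
      rw [sol_uu_top h1]
      exact Finset.prod_ne_zero_iff.2 fun j _ => pow_ne_zero _ (sol_top_ne h1 j)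
    rw [h5]
    rw [sol_rel_coeff h1] at h6 ⊢
    rw [sol_rel_coeff h3, hz3, hud]
    rw [hud] at h6
    have h7 : D.al b * q + D.be b ≠ 0 := by
      intro h8
      apply h6
      have : D.al b * (q * v.coeff d) + D.be b * v.coeff d =
        (D.al b * q + D.be b) * v.coeff d := by ring
      rw [this, h8, zero_mul]
    have h9 : D.al b * (q * v'.coeff 0) + D.be b * v'.coeff 0 =
        (D.al b * q + D.be b) * v'.coeff 0 := by ring
    have h10 : D.al b * (q * v.coeff d) + D.be b * v.coeff d =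
        (D.al b * q + D.be b) * v.coeff d := by ring
    rw [h9, h10, mul_div_mul_left _ _ h7]
  obtain ⟨h5, h6⟩ := hSCAL D c d τ u v (fun j => (τ' j).coeff 0 / (τ j).coeff (c j))
    (v'.coeff 0 / v.coeff d) h1 (fun j => div_ne_zero (hz1 j) (sol_top_ne h1 j)) hprod
  refine glue_aux hIFT hCALC hLIN hGLA hCOPR D Bad c c' d d' _ τ' _ _ u' v' h5 (h6 h2) h3 h4'
    hz1 hG (fun j => ?_) ?_ ?_
  · rw [Polynomial.coeff_C_mul, div_mul_cancel₀ _ (sol_top_ne h1 j)]
  · rw [Polynomial.coeff_C_mul, hud, hz3]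
    field_simp
  · rw [Polynomial.coeff_C_mul, div_mul_cancel₀ _ hvd]

end

end Pool.C1.helper17
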